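import Pool.Agent.H90.STK.Stmts

/-!
# Board `stk`, module INT
-/

set_option autoImplicit false

namespace Pool.STK

open Finset Real MeasureTheory
open Pool.Agent.H49.Ent Pool.Agent.H32.Dense

namespace INT

theorem meas_floor (a b : ℝ) : Measurable fun t : ℝ => ⌊a + t * b⌋ := by
  apply Int.measurable_floor.comp
  fun_prop

theorem measurable_Xp {Ω : Type} {m : ℕ} (u d : Ω → Fin m → ℝ) (j : ℕ) (ω : Ω) :
    Measurable fun t : ℝ => Xp u d t j ω := by
  rw [measurable_pi_iff]
  intro i
  have h : (fun t : ℝ => Xp u d t j ω i) =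
      fun t : ℝ => ⌊2 ^ j * u ω i + t * (2 ^ j * d ω i)⌋ := by
    funext t
    simp only [Xp, fl, rd, pt]
    congr 1
    ring
  rw [h]
  exact meas_floor _ _

theorem measurableSet_Xp {Ω : Type} {m : ℕ} (u d : Ω → Fin m → ℝ) (j : ℕ) (ω ω' : Ω) :
    MeasurableSet {t : ℝ | Xp u d t j ω = Xp u d t j ω'} :=
  measurableSet_eq_fun (measurable_Xp u d j ω) (measurable_Xp u d j ω')

end INT

theorem int_thm (hMEA : MEAStmt) : INTStmt := by
  intro m Ω ζ _ p u d hp
  constructor
  · intro Z j a b
    have h1 := (hMEA Ω ((Fin m → ℤ) × ζ) p hp (fun t ω => (Xp u d t j ω, Z ω)) (by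
      intro ω ω'
      by_cases hZ : Z ω = Z ω'
      · simpa only [Prod.mk.injEq, hZ, and_true] using INT.measurableSet_Xp u d j ω ω'
      · have : {t : ℝ | (Xp u d t j ω, Z ω) = (Xp u d t j ω', Z ω')} = ∅ := by
          ext t
          simp [hZ]
        rw [this]
        exact MeasurableSet.empty)).2 a b
    exact h1.sub intervalIntegrable_const
  · intro Z j i a b
    have h1 := (hMEA Ω ((Fin m → ℤ) × ((Fin m → ℤ) × ζ)) p hp
      (fun t ω => (Xp u d t j ω, (Xp u d t i ω, Z ω))) (by
      intro ω ω'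
      by_cases hZ : Z ω = Z ω'
      · have : {t : ℝ | (Xp u d t j ω, (Xp u d t i ω, Z ω)) =
            (Xp u d t j ω', (Xp u d t i ω', Z ω'))} =
            {t : ℝ | Xp u d t j ω = Xp u d t j ω'} ∩ {t : ℝ | Xp u d t i ω = Xp u d t i ω'} := by
          ext t
          simp [hZ]
        rw [this]
        exact (INT.measurableSet_Xp u d j ω ω').inter (INT.measurableSet_Xp u d i ω ω')
      · have : {t : ℝ | (Xp u d t j ω, (Xp u d t i ω, Z ω)) =
            (Xp u d t j ω', (Xp u d t i ω', Z ω'))} = ∅ := by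
          ext t
          simp [hZ]
        rw [this]
        exact MeasurableSet.empty)).2 a b
    have h2 := (hMEA Ω ((Fin m → ℤ) × ζ) p hp (fun t ω => (Xp u d t i ω, Z ω)) (by
      intro ω ω'
      by_cases hZ : Z ω = Z ω'
      · simpa only [Prod.mk.injEq, hZ, and_true] using INT.measurableSet_Xp u d i ω ω'
      · have : {t : ℝ | (Xp u d t i ω, Z ω) = (Xp u d t i ω', Z ω')} = ∅ := by
          ext t
          simp [hZ]
        rw [this]
        exact MeasurableSet.empty)).2 a b
    exact h1.sub h2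

theorem in2_thm (hMEA : MEAStmt) : IN2Stmt := by
  intro m Ω Ω' ζ _ _ q f g u d hq Z j a b
  have hm : ∀ w : Ω', Measurable fun t : ℝ => Xp u d t j (f w) - Xp u d t j (g w) := by
    intro w
    exact (INT.measurable_Xp u d j (f w)).sub (INT.measurable_Xp u d j (g w))
  have h1 := (hMEA Ω' ((Fin m → ℤ) × ζ) q hq
    (fun t w => (Xp u d t j (f w) - Xp u d t j (g w), Z w)) (by
    intro w w'
    by_cases hZ : Z w = Z w'
    · have h := measurableSet_eq_fun (hm w) (hm w')
      simpa only [Prod.mk.injEq, hZ, and_true] using h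
    · have : {t : ℝ | (Xp u d t j (f w) - Xp u d t j (g w), Z w) =
          (Xp u d t j (f w') - Xp u d t j (g w'), Z w')} = ∅ := by
        ext t
        simp [hZ]
      rw [this]
      exact MeasurableSet.empty)).2 a b
  exact h1.sub intervalIntegrable_const

end Pool.STK
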